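import Pool.Agent.helper4.QX.SpecD

set_option autoImplicit false

open scoped MatrixGroups ContDiff Topology UpperHalfPlane
open UpperHalfPlane MeasureTheory ProbabilityTheory Filter Set Polynomial
open Pool.Agent.QU Pool.Agent.RP

namespace Pool.Agent.QX

theorem SEP : SEP_stmt := by
  intro Γ hΓ
  obtain ⟨K, hK, hcov⟩ := hΓ.cocompact
  have : CompactSpace K := isCompact_iff_compactSpace.mp hK
  let X : Type := {f : C(K, ℝ) // ∃ h : ℍ → ℝ, Inv Γ h ∧ ∀ z : K, f z = h z}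
  have hX : Nonempty X := ⟨⟨0, fun _ => 0, ⟨continuous_const, fun _ _ => rfl⟩, fun _ => rfl⟩⟩
  have : SecondCountableTopology X := inferInstanceAs
    (SecondCountableTopology {f : C(K, ℝ) // ∃ h : ℍ → ℝ, Inv Γ h ∧ ∀ z : K, f z = h z})
  let D : ℕ → X := TopologicalSpace.denseSeq X
  have hD : DenseRange D := TopologicalSpace.denseRange_denseSeq X
  refine ⟨fun i => (D i).2.choose, fun i => (D i).2.choose_spec.1, ?_⟩
  intro h hh ε hε
  let fh : X := ⟨⟨fun z : K => h z, hh.1.comp continuous_subtype_val⟩, h, hh, fun _ => rfl⟩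
  obtain ⟨i, hi⟩ := hD.exists_dist_lt fh hε
  refine ⟨i, fun z => ?_⟩
  obtain ⟨γ, hγ⟩ := hcov z
  have hsp := (D i).2.choose_spec
  show |h z - (D i).2.choose z| ≤ ε
  rw [← hh.2 γ z, ← hsp.1.2 γ z, ← hsp.2 ⟨γ • z, hγ⟩]
  have h1 : dist (fh.1 ⟨γ • z, hγ⟩) ((D i).1 ⟨γ • z, hγ⟩) ≤ dist fh.1 (D i).1 :=
    ContinuousMap.dist_apply_le_dist _
  have h2 : dist fh.1 (D i).1 < ε := hi
  rw [← Real.dist_eq]
  exact le_trans h1 h2.le

end Pool.Agent.QX
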