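import Pool.Agent.helper4.QX.SpecF

set_option autoImplicit false

/-!
# Project QX (MP_07c750), row qf:EGB
-/

open scoped MatrixGroups ContDiff Topology UpperHalfPlane
open UpperHalfPlane MeasureTheory ProbabilityTheory Filter Set Polynomial
open Pool.Agent.QU Pool.Agent.RP

namespace Pool.Agent.QX

theorem EGB_dc {φ : ℝ → ℝ} (h : ContDiff ℝ ∞ φ) : ContDiff ℝ ∞ (deriv φ) :=
  (contDiff_infty_iff_deriv.1 h).2

theorem EGB_van {φ : ℝ → ℝ} (h : ContDiff ℝ ∞ φ) (h0 : ∀ t, 1 ≤ t → φ t = 0) :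
    ∀ t, 1 ≤ t → deriv φ t = 0 := by
  have h1 : ∀ t ∈ Ioi (1 : ℝ), deriv φ t = 0 := by
    intro t ht
    have he : φ =ᶠ[𝓝 t] fun _ => (0 : ℝ) := by
      filter_upwards [Ioi_mem_nhds ht] with s hs
      exact h0 s (le_of_lt hs)
    rw [he.deriv_eq, deriv_const]
  have hc : Continuous (deriv φ) := (EGB_dc h).continuous
  have hcl : IsClosed {t : ℝ | deriv φ t = 0} := isClosed_eq hc continuous_const
  have hsub : closure (Ioi (1 : ℝ)) ⊆ {t : ℝ | deriv φ t = 0} := hcl.closure_subset_iff.2 h1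
  intro t ht
  have : t ∈ closure (Ioi (1 : ℝ)) := by
    rw [closure_Ioi]
    exact ht
  exact hsub this

theorem EGB_b1 {φ : ℝ → ℝ} (h : Continuous φ) (h0 : ∀ t, 1 ≤ t → φ t = 0) :
    ∃ M : ℝ, 0 ≤ M ∧ ∀ t, 0 ≤ t → |φ t| ≤ M := by
  obtain ⟨M, hM⟩ := (isCompact_Icc (a := (0 : ℝ)) (b := 1)).exists_bound_of_continuousOn
    h.continuousOn
  refine ⟨max M 0, le_max_right _ _, fun t ht => ?_⟩
  rcases le_total t 1 with h1 | h1
  · exact (hM t ⟨ht, h1⟩).trans (le_max_left _ _)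
  · rw [h0 t h1, abs_zero]
    exact le_max_right _ _

theorem EGB_bd {φ : ℝ → ℝ} (h : ContDiff ℝ ∞ φ) (h0 : ∀ t, 1 ≤ t → φ t = 0) :
    ∃ M : ℝ, 0 ≤ M ∧ ∀ t, 0 ≤ t → |φ t| ≤ M ∧ |deriv φ t| ≤ M ∧ |deriv (deriv φ) t| ≤ M := by
  have hd := EGB_dc h
  have h1 := EGB_van h h0
  have hdd := EGB_dc hd
  have h2 := EGB_van hd h1
  obtain ⟨M0, hM0, hb0⟩ := EGB_b1 h.continuous h0
  obtain ⟨M1, hM1, hb1⟩ := EGB_b1 hd.continuous h1
  obtain ⟨M2, hM2, hb2⟩ := EGB_b1 hdd.continuous h2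
  refine ⟨M0 + M1 + M2, by positivity, fun t ht => ⟨?_, ?_, ?_⟩⟩
  · linarith [hb0 t ht]
  · linarith [hb1 t ht]
  · linarith [hb2 t ht]

theorem EGB_ds {A B : ℝ → ℝ} (hA : Differentiable ℝ A) (hB : Differentiable ℝ B) (a b η : ℝ) :
    deriv (fun t => a * A (t / η) + b * B (t / η)) =
      fun t => a / η * deriv A (t / η) + b / η * deriv B (t / η) := by
  funext t
  have h0 : HasDerivAt (fun t : ℝ => t / η) (1 / η) t := (hasDerivAt_id t).div_const η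
  have h1 : HasDerivAt (fun t => A (t / η)) (deriv A (t / η) * (1 / η)) t :=
    HasDerivAt.comp t (hA (t / η)).hasDerivAt h0
  have h2 : HasDerivAt (fun t => B (t / η)) (deriv B (t / η) * (1 / η)) t :=
    HasDerivAt.comp t (hB (t / η)).hasDerivAt h0
  have h3 := (h1.const_mul a).add (h2.const_mul b)
  have h4 : HasDerivAt (fun t => a * A (t / η) + b * B (t / η))
      (a * (deriv A (t / η) * (1 / η)) + b * (deriv B (t / η) * (1 / η))) t := h3
  rw [h4.deriv]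
  ring

/-- bounds for `a A(t/η) + b B(t/η)` -/
theorem EGB_bs {A B : ℝ → ℝ} (hA : ContDiff ℝ ∞ A) (hB : ContDiff ℝ ∞ B) (MA MB : ℝ)
    (hbA : ∀ t, 0 ≤ t → |A t| ≤ MA ∧ |deriv A t| ≤ MA ∧ |deriv (deriv A) t| ≤ MA)
    (hbB : ∀ t, 0 ≤ t → |B t| ≤ MB ∧ |deriv B t| ≤ MB ∧ |deriv (deriv B) t| ≤ MB)
    (a b η : ℝ) (ha : 0 ≤ a) (hb : 0 ≤ b) (hη : 0 < η) (hη1 : η ≤ 1) (hMA : 0 ≤ MA) (hMB : 0 ≤ MB) :
    ∀ t, 0 ≤ t → |(fun t => a * A (t / η) + b * B (t / η)) t| ≤ (a * MA + b * MB) / η ^ 2 ∧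
      |deriv (fun t => a * A (t / η) + b * B (t / η)) t| ≤ (a * MA + b * MB) / η ^ 2 ∧
      |deriv (deriv (fun t => a * A (t / η) + b * B (t / η))) t| ≤ (a * MA + b * MB) / η ^ 2 := by
  intro t ht
  have hdA : Differentiable ℝ A := hA.differentiable (by simp)
  have hdB : Differentiable ℝ B := hB.differentiable (by simp)
  have hdA' : Differentiable ℝ (deriv A) := (EGB_dc hA).differentiable (by simp)
  have hdB' : Differentiable ℝ (deriv B) := (EGB_dc hB).differentiable (by simp)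
  have hs : 0 ≤ t / η := div_nonneg ht hη.le
  obtain ⟨a0, a1, a2⟩ := hbA _ hs
  obtain ⟨b0, b1, b2⟩ := hbB _ hs
  have key : ∀ (x y c d : ℝ), 0 ≤ c → 0 ≤ d → |x| ≤ MA → |y| ≤ MB →
      |c * x + d * y| ≤ c * MA + d * MB := by
    intro x y c d hc hd hx hy
    calc |c * x + d * y| ≤ |c * x| + |d * y| := abs_add_le _ _
      _ = c * |x| + d * |y| := by rw [abs_mul, abs_mul, abs_of_nonneg hc, abs_of_nonneg hd]
      _ ≤ c * MA + d * MB := add_le_add (mul_le_mul_of_nonneg_left hx hc)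
          (mul_le_mul_of_nonneg_left hy hd)
  have hS : 0 ≤ a * MA + b * MB := by positivity
  have hη2 : η ^ 2 ≤ 1 := pow_le_one₀ hη.le hη1
  have hη2' : η ^ 2 ≤ η := by nlinarith
  refine ⟨?_, ?_, ?_⟩
  · refine (key _ _ a b ha hb a0 b0).trans ?_
    rw [le_div_iff₀ (by positivity)]
    nlinarith
  · rw [EGB_ds hdA hdB]
    refine (key _ _ (a / η) (b / η) (by positivity) (by positivity) a1 b1).trans ?_
    have e : a / η * MA + b / η * MB = (a * MA + b * MB) / η := by ring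
    rw [e, div_le_div_iff₀ hη (by positivity)]
    nlinarith
  · rw [EGB_ds hdA hdB, EGB_ds hdA' hdB']
    refine (key _ _ (a / η / η) (b / η / η) (by positivity) (by positivity) a2 b2).trans ?_
    have e : a / η / η * MA + b / η / η * MB = (a * MA + b * MB) / η ^ 2 := by
      field_simp
    rw [e]

theorem EGB_mono (g : ℍ → ℝ) (C C' : ℝ) (h : FB g C) (hC : C ≤ C') : FB g C' := by
  refine ⟨h.1, fun z => ?_⟩
  obtain ⟨h1, h2, h3, h4, h5, h6, h7⟩ := h.2 z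
  exact ⟨h1.trans hC, h2.trans hC, h3.trans hC, h4.trans hC, h5.trans hC, h6.trans hC, h7.trans hC⟩

theorem EGB_cv (κ : ℝ → ℝ) (h0 : ∀ t, 0 ≤ κ t) (h1 : ∀ z : ℍ, ∫ w : ℍ, κ (tt z w) = 1)
    (f : ℍ → ℝ) (m : ℝ) (hf : ∀ z, |f z| ≤ m) (z : ℍ) : |conv κ f z| ≤ m := by
  have hint : Integrable (fun w : ℍ => κ (tt z w)) := by
    by_contra hno
    have := h1 z
    rw [integral_undef hno] at this
    exact zero_ne_one this
  have h2 : ‖∫ w : ℍ, κ (tt z w) • f w‖ ≤ ∫ w : ℍ, κ (tt z w) * m := by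
    refine norm_integral_le_of_norm_le (hint.mul_const m) ?_
    refine Eventually.of_forall fun w => ?_
    rw [smul_eq_mul, norm_mul, Real.norm_eq_abs, Real.norm_eq_abs, abs_of_nonneg (h0 _)]
    exact mul_le_mul_of_nonneg_left (hf w) (h0 _)
  rw [integral_mul_const, h1 z, one_mul] at h2
  exact h2

theorem EGB (hEKF : EKF_stmt) : EGB_stmt := by
  obtain ⟨A₀, hA₀, hE⟩ := hEKF
  intro κ₁ C hBF
  have hs := hBF.smooth
  have hd := EGB_dc hs
  have hdd := EGB_dc hd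
  have v0 : ∀ t, 1 ≤ t → κ₁ t = 0 := hBF.supp
  have v1 := EGB_van hs v0
  have v2 := EGB_van hd v1
  set A : ℝ → ℝ := fun s => -(s ^ 2 * deriv (deriv κ₁) s + 2 * s * deriv κ₁ s) with hAdef
  set B : ℝ → ℝ := fun s => -(2 * s * deriv (deriv κ₁) s + 2 * deriv κ₁ s) with hBdef
  have hAs : ContDiff ℝ ∞ A :=
    (((contDiff_id.pow 2).mul hdd).add ((contDiff_const.mul contDiff_id).mul hd)).neg
  have hBs : ContDiff ℝ ∞ B :=
    (((contDiff_const.mul contDiff_id).mul hdd).add (contDiff_const.mul hd)).neg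
  have hA0 : ∀ t, 1 ≤ t → A t = 0 := by
    intro t ht
    rw [hAdef]
    show -(t ^ 2 * deriv (deriv κ₁) t + 2 * t * deriv κ₁ t) = 0
    rw [v1 t ht, v2 t ht]; ring
  have hB0 : ∀ t, 1 ≤ t → B t = 0 := by
    intro t ht
    rw [hBdef]
    show -(2 * t * deriv (deriv κ₁) t + 2 * deriv κ₁ t) = 0
    rw [v1 t ht, v2 t ht]; ring
  obtain ⟨MK, hMK, hbK⟩ := EGB_bd hs v0
  obtain ⟨MA, hMA, hbA⟩ := EGB_bd hAs hA0
  obtain ⟨MB, hMB, hbB⟩ := EGB_bd hBs hB0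
  refine ⟨1 + A₀ * (MK + MA + MB), ?_, ?_⟩
  · have : 0 ≤ A₀ * (MK + MA + MB) := by positivity
    linarith
  intro η f m hη hη1 hf hm
  have hm0 : 0 ≤ m := (abs_nonneg _).trans (hm UpperHalfPlane.I)
  have hrk : RK (fm κ₁ η) := hBF.fam.rk η hη
  have hnn := hBF.fam.nonneg η hη
  have hmass := hBF.fam.mass η hη
  have hcont : Continuous (conv (fm κ₁ η) f) := (A_CVB ℝ).2.2.2.2.2.1 _ f hrk hf
  have hb1 : ∀ z, |conv (fm κ₁ η) f z| ≤ m := EGB_cv _ hnn hmass f m hm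
  have hb2 : ∀ z, |BB κ₁ η f z| ≤ m := EGB_cv _ hnn hmass _ m hb1
  -- the kernel
  have hk1 : fm κ₁ η = fun t => 1 / η * κ₁ (t / η) + 0 * κ₁ (t / η) := by
    funext t
    unfold fm
    ring
  have hkd : deriv (fm κ₁ η) = fun t => 1 / η / η * deriv κ₁ (t / η) + 0 / η * deriv κ₁ (t / η) := by
    rw [hk1]
    exact EGB_ds (hs.differentiable (by simp)) (hs.differentiable (by simp)) _ _ _
  have hkdd : deriv (deriv (fm κ₁ η)) = fun t => 1 / η / η / η * deriv (deriv κ₁) (t / η) +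
      0 / η / η * deriv (deriv κ₁) (t / η) := by
    rw [hkd]
    exact EGB_ds (hd.differentiable (by simp)) (hd.differentiable (by simp)) _ _ _
  have hkb : ∀ t, 0 ≤ t → |fm κ₁ η t| ≤ MK / η ^ 3 ∧ |deriv (fm κ₁ η) t| ≤ MK / η ^ 3 ∧
      |deriv (deriv (fm κ₁ η)) t| ≤ MK / η ^ 3 := by
    intro t ht
    have h := EGB_bs hs hs MK MK hbK hbK (1 / η) 0 η (by positivity) le_rfl hη hη1 hMK hMK t ht
    rw [← hk1] at h
    have e : (1 / η * MK + 0 * MK) / η ^ 2 = MK / η ^ 3 := by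
      field_simp
      ring
    rw [e] at h
    exact h
  have hL : LL (fm κ₁ η) = fun t => 1 / η * A (t / η) + 1 / η ^ 2 * B (t / η) := by
    funext t
    unfold LL
    rw [hkdd, hkd]
    simp only [hAdef, hBdef]
    field_simp
    ring
  have hLrk : RK (LL (fm κ₁ η)) := A_LAK.2.2.2.1 _ hrk
  have hLb : ∀ t, 0 ≤ t → |LL (fm κ₁ η) t| ≤ (MA + MB) / η ^ 4 ∧
      |deriv (LL (fm κ₁ η)) t| ≤ (MA + MB) / η ^ 4 ∧
      |deriv (deriv (LL (fm κ₁ η))) t| ≤ (MA + MB) / η ^ 4 := by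
    intro t ht
    have h := EGB_bs hAs hBs MA MB hbA hbB (1 / η) (1 / η ^ 2) η (by positivity) (by positivity)
      hη hη1 hMA hMB t ht
    rw [← hL] at h
    have e : (1 / η * MA + 1 / η ^ 2 * MB) / η ^ 2 ≤ (MA + MB) / η ^ 4 := by
      have e1 : (1 / η * MA + 1 / η ^ 2 * MB) / η ^ 2 = (η * MA + MB) / η ^ 4 := by
        field_simp
      rw [e1]
      apply div_le_div_of_nonneg_right _ (by positivity)
      nlinarith
    exact ⟨h.1.trans e, h.2.1.trans e, h.2.2.trans e⟩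
  have hKv : ∀ t, 1 ≤ t → fm κ₁ η t = 0 := fun t ht => hBF.fam.supp η hη t (hη1.trans ht)
  have hLv : ∀ t, 1 ≤ t → LL (fm κ₁ η) t = 0 := by
    intro t ht
    have h1 : 1 ≤ t / η := by
      rw [le_div_iff₀ hη]
      linarith
    rw [hL]
    show 1 / η * A (t / η) + 1 / η ^ 2 * B (t / η) = 0
    rw [hA0 _ h1, hB0 _ h1]
    ring
  have hη5 : (0 : ℝ) < η ^ 5 := by positivity
  refine ⟨hb2, ?_, ?_⟩
  · have h := hE (fm κ₁ η) (MK / η ^ 3) hrk hKv hkb (conv (fm κ₁ η) f) m hcont hb1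
    refine EGB_mono _ _ _ h ?_
    refine mul_le_mul_of_nonneg_right ?_ hm0
    have e : A₀ * (MK / η ^ 3) = A₀ * MK * η ^ 2 / η ^ 5 := by
      field_simp
    rw [e]
    apply div_le_div_of_nonneg_right _ hη5.le
    have h1 : η ^ 2 ≤ 1 := pow_le_one₀ hη.le hη1
    have h2 : A₀ * MK * η ^ 2 ≤ A₀ * MK := mul_le_of_le_one_right (by positivity) h1
    have h3 : 0 ≤ A₀ * (MA + MB) := by positivity
    nlinarith
  · have h := hE (LL (fm κ₁ η)) ((MA + MB) / η ^ 4) hLrk hLv hLb (conv (fm κ₁ η) f) m hcont hb1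
    have hlap : lap (BB κ₁ η f) = conv (LL (fm κ₁ η)) (conv (fm κ₁ η) f) := by
      funext z
      exact (A_CVS ℝ (fm κ₁ η) (conv (fm κ₁ η) f) hrk hcont).2.2.2 z
    rw [hlap]
    refine EGB_mono _ _ _ h ?_
    refine mul_le_mul_of_nonneg_right ?_ hm0
    have e : A₀ * ((MA + MB) / η ^ 4) = A₀ * (MA + MB) * η / η ^ 5 := by
      field_simp
    rw [e]
    apply div_le_div_of_nonneg_right _ hη5.le
    have h2 : A₀ * (MA + MB) * η ≤ A₀ * (MA + MB) := mul_le_of_le_one_right (by positivity) hη1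
    have h3 : 0 ≤ A₀ * MK := by positivity
    nlinarith

end Pool.Agent.QX
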